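import Pool.Agent.W838.DC.Stm

/-! # Basic facts about a system `σ` -/

set_option autoImplicit false

namespace Pool.Agent.W838.DC

namespace Sys

variable {V X : Type*} [AddCommGroup V] (σ : Sys V X)

/-- the reflection in `a` as a map on `V` -/
def rf (a b : V) : V := b - σ.ip b a • a

theorem ip_add_right (a b c : V) : σ.ip a (b + c) = σ.ip a b + σ.ip a c := by
  rw [σ.ip_symm, σ.ip_add, σ.ip_symm b, σ.ip_symm c]

theorem ip_zero (b : V) : σ.ip 0 b = 0 := by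
  have := σ.ip_add 0 0 b
  rw [add_zero] at this
  omega

theorem ip_neg (a b : V) : σ.ip (-a) b = - σ.ip a b := by
  have := σ.ip_add a (-a) b
  rw [add_neg_cancel, ip_zero] at this
  omega

theorem ip_neg_right (a b : V) : σ.ip a (-b) = - σ.ip a b := by
  rw [σ.ip_symm, ip_neg, σ.ip_symm]

theorem ip_sub (a b c : V) : σ.ip (a - b) c = σ.ip a c - σ.ip b c := by
  rw [sub_eq_add_neg, σ.ip_add, ip_neg]; ring

theorem ip_sub_right (a b c : V) : σ.ip a (b - c) = σ.ip a b - σ.ip a c := by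
  rw [sub_eq_add_neg, ip_add_right, ip_neg_right]; ring

theorem ip_zsmul (k : ℤ) (a b : V) : σ.ip (k • a) b = k * σ.ip a b := by
  let f : V →+ ℤ := { toFun := fun a => σ.ip a b, map_zero' := σ.ip_zero b, map_add' := fun x y => σ.ip_add x y b }
  have := map_zsmul f k a
  simpa [f] using this

theorem ip_zsmul_right (k : ℤ) (a b : V) : σ.ip a (k • b) = k * σ.ip a b := by
  rw [σ.ip_symm, ip_zsmul, σ.ip_symm]

theorem neg_mem {a : V} (ha : a ∈ σ.Φ) : -a ∈ σ.Φ := by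
  have := σ.refl_mem a ha a ha
  rw [σ.ip_self a ha] at this
  have e : a - (2 : ℤ) • a = -a := by rw [two_zsmul]; abel
  rwa [e] at this

theorem add_mem {a b : V} (ha : a ∈ σ.Φ) (hb : b ∈ σ.Φ) (h : σ.ip a b = -1) : a + b ∈ σ.Φ := by
  have := σ.refl_mem a ha b hb
  rw [σ.ip_symm, h] at this
  have e : b - (-1 : ℤ) • a = a + b := by rw [neg_one_zsmul]; abel
  rwa [e] at this

theorem sub_mem {a b : V} (ha : a ∈ σ.Φ) (hb : b ∈ σ.Φ) (h : σ.ip a b = 1) : a - b ∈ σ.Φ := by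
  have := σ.refl_mem b hb a ha
  rw [h, one_zsmul] at this
  exact this

theorem ip_cases {a b : V} (ha : a ∈ σ.Φ) (hb : b ∈ σ.Φ) :
    a = b ∨ a = -b ∨ σ.ip a b = -1 ∨ σ.ip a b = 0 ∨ σ.ip a b = 1 := by
  by_cases h1 : a = b
  · exact Or.inl h1
  by_cases h2 : a = -b
  · exact Or.inr (Or.inl h2)
  have := σ.ip_bd a ha b hb h1 h2
  omega

theorem ip_eq_two {a b : V} (ha : a ∈ σ.Φ) (hb : b ∈ σ.Φ) (h : σ.ip a b = 2) : a = b := by
  rcases σ.ip_cases ha hb with h1 | h1 | h1 | h1 | h1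
  · exact h1
  · rw [h1, σ.ip_neg, σ.ip_self b hb] at h; omega
  all_goals omega

theorem ip_eq_neg_two {a b : V} (ha : a ∈ σ.Φ) (hb : b ∈ σ.Φ) (h : σ.ip a b = -2) : a = -b := by
  rcases σ.ip_cases ha hb with h1 | h1 | h1 | h1 | h1
  · rw [h1, σ.ip_self b hb] at h; omega
  · exact h1
  all_goals omega

/-- for two distinct positive roots the inner product is in `{-1, 0, 1}` -/
theorem ip_pos {a b : V} (ha : a ∈ σ.Φ) (hb : b ∈ σ.Φ) (pa : 0 < σ.ht a) (pb : 0 < σ.ht b) (h : a ≠ b) :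
    σ.ip a b = -1 ∨ σ.ip a b = 0 ∨ σ.ip a b = 1 := by
  rcases σ.ip_cases ha hb with h1 | h1 | h1 | h1 | h1
  · exact absurd h1 h
  · rw [h1, map_neg] at pa; omega
  all_goals tauto

theorem ip_ge {a b : V} (ha : a ∈ σ.Φ) (hb : b ∈ σ.Φ) (pa : 0 < σ.ht a) (pb : 0 < σ.ht b) :
    -1 ≤ σ.ip a b := by
  rcases σ.ip_cases ha hb with h1 | h1 | h1 | h1 | h1
  · rw [h1, σ.ip_self b hb]; omega
  · rw [h1, map_neg] at pa; omega
  all_goals omega

theorem lab_ht_ne (x : X) {a : V} (ha : a ∈ σ.Φ) : σ.ht (σ.lab x a) ≠ 0 :=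
  σ.ht_ne _ (σ.lab_mem x a ha)

theorem R_or_N (x : X) {a : V} (ha : a ∈ σ.Φ) (pa : 0 < σ.ht a) : σ.R x a ∨ σ.N x a := by
  have := σ.lab_ht_ne x ha
  rcases lt_or_gt_of_ne this with h | h
  · exact Or.inr ⟨ha, pa, h⟩
  · exact Or.inl ⟨ha, pa, h⟩

theorem not_R_and_N {x : X} {a : V} (h : σ.R x a) (h' : σ.N x a) : False := by
  have := h.2.2; have := h'.2.2; omega

/-- labels after a reflection, in the three cases -/
theorem lab_r_zero {a : V} (ha : a ∈ σ.Φ) (x : X) {b : V} (h : σ.ip a b = 0) :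
    σ.lab (σ.r a x) b = σ.lab x b := by
  rw [σ.lab_r a ha, σ.ip_symm, h, zero_zsmul, sub_zero]

theorem lab_r_neg {a : V} (ha : a ∈ σ.Φ) (x : X) {b : V} (h : σ.ip a b = -1) :
    σ.lab (σ.r a x) b = σ.lab x a + σ.lab x b := by
  rw [σ.lab_r a ha, σ.ip_symm, h, neg_one_zsmul, sub_neg_eq_add, map_add, add_comm]

theorem lab_r_pos {a : V} (ha : a ∈ σ.Φ) (x : X) {b : V} (h : σ.ip a b = 1) :
    σ.lab (σ.r a x) b = σ.lab x b - σ.lab x a := by
  rw [σ.lab_r a ha, σ.ip_symm, h, one_zsmul, map_sub]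

theorem lab_r_self {a : V} (ha : a ∈ σ.Φ) (x : X) : σ.lab (σ.r a x) a = - σ.lab x a := by
  rw [σ.lab_r a ha, σ.ip_self a ha, two_zsmul, map_sub, map_add]; abel

theorem r_r {a : V} (ha : a ∈ σ.Φ) (x : X) : σ.r a (σ.r a x) = x := by
  apply σ.ext
  intro b
  rw [σ.lab_r a ha, σ.lab_r a ha]
  congr 1
  rw [σ.ip_sub, σ.ip_zsmul, σ.ip_self a ha]
  have : (σ.ip b a - σ.ip b a * 2) • a = - (σ.ip b a • a) := by
    rw [← neg_zsmul]; congr 1; ring
  rw [this]; abel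

theorem r_neg {a : V} (ha : a ∈ σ.Φ) (x : X) : σ.r (-a) x = σ.r a x := by
  apply σ.ext
  intro b
  rw [σ.lab_r a ha, σ.lab_r _ (σ.neg_mem ha), σ.ip_neg_right]
  congr 2
  rw [neg_zsmul, zsmul_neg, neg_neg]

/-- `r a (r b x) = r (s_a b) (r a x)` -/
theorem r_conj {a b : V} (ha : a ∈ σ.Φ) (hb : b ∈ σ.Φ) (x : X) :
    σ.r a (σ.r b x) = σ.r (b - σ.ip b a • a) (σ.r a x) := by
  apply σ.ext
  intro c
  rw [σ.lab_r a ha, σ.lab_r b hb, σ.lab_r _ (σ.refl_mem a ha b hb), σ.lab_r a ha]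
  congr 1
  have haa := σ.ip_self a ha
  have e1 : σ.ip b a = σ.ip a b := σ.ip_symm b a
  simp only [σ.ip_sub, σ.ip_zsmul, σ.ip_sub_right, σ.ip_zsmul_right, haa, e1]
  module

theorem r_comm {a b : V} (ha : a ∈ σ.Φ) (hb : b ∈ σ.Φ) (h : σ.ip a b = 0) (x : X) :
    σ.r a (σ.r b x) = σ.r b (σ.r a x) := by
  rw [σ.r_conj ha hb, σ.ip_symm, h, zero_zsmul, sub_zero]

/-- `r a (r b x) = r (a + b) (r a x)` if `ip a b = -1` -/
theorem r_conj_neg {a b : V} (ha : a ∈ σ.Φ) (hb : b ∈ σ.Φ) (h : σ.ip a b = -1) (x : X) :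
    σ.r a (σ.r b x) = σ.r (a + b) (σ.r a x) := by
  rw [σ.r_conj ha hb, σ.ip_symm, h, neg_one_zsmul, sub_neg_eq_add, add_comm]

/-- `r a (r b x) = r (b - a) (r a x)` if `ip a b = 1` -/
theorem r_conj_pos {a b : V} (ha : a ∈ σ.Φ) (hb : b ∈ σ.Φ) (h : σ.ip a b = 1) (x : X) :
    σ.r a (σ.r b x) = σ.r (b - a) (σ.r a x) := by
  rw [σ.r_conj ha hb, σ.ip_symm, h, one_zsmul]

/-- going up stays out of the region: if `r a x` is in the region and `a` is above `x`, so is `x` -/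
theorem P_of_R {x : X} {a : V} (h : σ.R x a) (hP : σ.P (σ.r a x)) : σ.P x := by
  have := σ.P_down a h.1 (σ.r a x) h.2.1 (by
    rw [σ.lab_r_self h.1, map_neg]; have := h.2.2; omega) hP
  rwa [σ.r_r h.1] at this

theorem P_of_N {x : X} {a : V} (h : σ.N x a) (hP : σ.P x) : σ.P (σ.r a x) :=
  σ.P_down a h.1 x h.2.1 h.2.2 hP

theorem Reach.refl (x : X) : σ.Reach x x := Relation.ReflTransGen.refl

variable {σ}

theorem Reach.trans {x y z : X} (h : σ.Reach x y) (h' : σ.Reach y z) : σ.Reach x z :=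
  Relation.ReflTransGen.trans h h'

theorem Reach.head {x : X} {a : V} {y : X} (h : σ.Psi x a) (h' : σ.Reach (σ.r a x) y) : σ.Reach x y :=
  Relation.ReflTransGen.head ⟨a, h, rfl⟩ h'

theorem Reach.single {x : X} {a : V} (h : σ.Psi x a) : σ.Reach x (σ.r a x) :=
  Relation.ReflTransGen.single ⟨a, h, rfl⟩

theorem RegUp.v {x : X} (h : σ.RegUp x) : σ.VReg x := h x Relation.ReflTransGen.refl

theorem RegUp.step {x : X} (h : σ.RegUp x) {a : V} (ha : σ.Psi x a) : σ.RegUp (σ.r a x) :=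
  fun y hy => h y (Reach.head ha hy)

theorem RegUp.reach {x : X} (h : σ.RegUp x) {y : X} (hy : σ.Reach x y) : σ.RegUp y :=
  fun z hz => h z (hy.trans hz)

end Sys

end Pool.Agent.W838.DC
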