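import Pool.Agent.W838.DC.TabYM

/-! # The finite checks in rank three, by kernel evaluation -/

set_option autoImplicit false
set_option maxRecDepth 100000

namespace Pool.Agent.W838.DC.Tab

theorem chkFX_true : runYM chkFX = true := by decide +kernel
theorem chkFY_true : runYM chkFY = true := by decide +kernel
theorem chkF1_true : runYM chkF1 = true := by decide +kernel
theorem chkF2_true : runYM chkF2 = true := by decide +kernel
theorem chkVX_true : runVX' = true := by decide +kernel
theorem chkCLM1_true : runYM (chkCLM 1) = true := by decide +kernel
theorem chkCLM2_true : runYM (chkCLM 2) = true := by decide +kernel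

end Pool.Agent.W838.DC.Tab
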