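import Pool.Agent.W838.DC.Stm2

/-!
# More statements: the two halves of G, and the pieces of SYS
-/

set_option autoImplicit false

namespace Pool.Agent.W838.DC

open Sys

variable {V X : Type*} [AddCommGroup V] (σ : Sys V X)

/-- the list `l` consists of pairwise orthogonal roots of `N x`, each with inner product `-1` with `y` -/
structure OL (x : X) (y : V) (l : List V) : Prop where
  mem : ∀ n ∈ l, σ.N x n ∧ σ.ip y n = -1
  orth : l.Pairwise (fun m n => σ.ip m n = 0)

/-- GO: G for orthogonal decompositions -/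
def S_GO : Prop := ∀ h, σ.IsPot h → ∀ x, σ.RegUp x → ∀ y l, σ.Psi x y → OL σ x y l →
  σ.Psi x (y + l.sum) → h x (y + l.sum) ≤ h x y

/-- GD: the decomposition can be chosen orthogonal -/
def S_GD : Prop := ∀ x y z, σ.Psi x y → σ.Psi x z →
  z - y ∈ AddSubmonoid.closure {n : V | σ.N x n} → ∃ l, OL σ x y l ∧ z = y + l.sum

section coxeter

variable {B : Type*} [Fintype B] [DecidableEq B] {M : CoxeterMatrix B} {W : Type*} [Group W]

/-- the simply laced integral form -/
def cart (M : CoxeterMatrix B) (i j : B) : ℤ := if i = j then 2 else if M i j = 3 then -1 else 0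

def ipZ (M : CoxeterMatrix B) (a b : B → ℤ) : ℤ := ∑ i, ∑ j, a i * b j * cart M i j

/-- `g` is the integral geometric representation, with its main properties -/
structure IsRep (cs : CoxeterSystem M W) (g : W →* AddMonoid.End (B → ℤ)) : Prop where
  simple : ∀ i v, g (cs.simple i) v = v - ipZ M v (Pi.single i 1) • (Pi.single i 1 : B → ℤ)
  inv : ∀ w a b, ipZ M (g w a) (g w b) = ipZ M a b
  inj : ∀ w w', (∀ v, g w v = g w' v) → w = w'
  sign : ∀ w i, (0 ≤ g w (Pi.single i 1) ∧ cs.length w < cs.length (w * cs.simple i)) ∨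
    (g w (Pi.single i 1) ≤ 0 ∧ cs.length (w * cs.simple i) < cs.length w)

/-- SYS1 -/
def S_SYS1 (cs : CoxeterSystem M W) : Prop := ∃ g, IsRep cs g

/-- SYS2: in a finite simply laced group two roots that are not proportional have inner product `-1, 0, 1` -/
def S_SYS2 (cs : CoxeterSystem M W) : Prop := ∀ g, IsRep cs g → ∀ w w' i j,
  g w (Pi.single i 1) ≠ g w' (Pi.single j 1) → g w (Pi.single i 1) ≠ - g w' (Pi.single j 1) →
  -1 ≤ ipZ M (g w (Pi.single i 1)) (g w' (Pi.single j 1)) ∧
    ipZ M (g w (Pi.single i 1)) (g w' (Pi.single j 1)) ≤ 1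

/-- SYS3: a positive root made negative by `x⁻¹` gives a left inversion of `x` -/
def S_SYS3 (cs : CoxeterSystem M W) : Prop := ∀ g, IsRep cs g → ∀ w i x,
  0 ≤ g w (Pi.single i 1) → g x⁻¹ (g w (Pi.single i 1)) ≤ 0 →
  cs.length (w * cs.simple i * w⁻¹ * x) < cs.length x

/-- SYS4: the length is the number of positive roots made negative by `x⁻¹` -/
def S_SYS4 (cs : CoxeterSystem M W) : Prop := ∀ g, IsRep cs g → ∀ x,
  Set.ncard {a : B → ℤ | (∃ w i, a = g w (Pi.single i 1)) ∧ 0 ≤ a ∧ g x⁻¹ a ≤ 0} = cs.length x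

end coxeter

end Pool.Agent.W838.DC
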