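import Mathlib
set_option autoImplicit false

namespace Pool.Agent.W838.DC

/-- entry of the Cartan matrix (over the integers) of a simply laced Coxeter matrix -/
noncomputable def cartE {B : Type*} (M : CoxeterMatrix B) (i k : B) : ℤ := by
  classical
  exact if k = i then 2 else if M i k = 3 then -1 else 0

/-- the dual reflection on functions -/
noncomputable def dre {B : Type*} (M : CoxeterMatrix B) (i : B) : Equiv.Perm (B → ℤ) where
  toFun := fun f k => f k - f i * cartE M i k
  invFun := fun f k => f k - f i * cartE M i k
  left_inv := by
    intro f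
    funext k
    have : cartE M i i = 2 := by simp [cartE]
    simp only [this]
    ring
  right_inv := by
    intro f
    funext k
    have : cartE M i i = 2 := by simp [cartE]
    simp only [this]
    ring

theorem dre_apply {B : Type*} (M : CoxeterMatrix B) (i : B) (f : B → ℤ) (k : B) :
    dre M i f k = f k - f i * cartE M i k := rfl

theorem dre_lift {B : Type*} (M : CoxeterMatrix B) (hsl : ∀ i j, i ≠ j → M i j = 2 ∨ M i j = 3) :
    M.IsLiftable (dre M) := by
  intro i j
  have cii : ∀ i, cartE M i i = 2 := fun i => by simp [cartE]
  by_cases hij : i = j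
  · subst hij
    rw [M.diagonal i, pow_one]
    ext f k
    simp only [Equiv.Perm.coe_mul, Function.comp, dre_apply, cii, Equiv.Perm.coe_one, id]
    ring
  · rcases hsl i j hij with h | h
    · have h1 : cartE M i j = 0 := by simp [cartE, Ne.symm hij, h]
      have h2 : cartE M j i = 0 := by simp [cartE, hij, M.symmetric j i, h]
      rw [h]
      ext f k
      simp only [pow_succ, pow_zero, one_mul, Equiv.Perm.coe_mul, Function.comp, dre_apply, cii, h1, h2,
        Equiv.Perm.coe_one, id]
      ring
    · have h1 : cartE M i j = -1 := by simp [cartE, Ne.symm hij, h]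
      have h2 : cartE M j i = -1 := by simp [cartE, hij, M.symmetric j i, h]
      rw [h]
      ext f k
      simp only [pow_succ, pow_zero, one_mul, Equiv.Perm.coe_mul, Function.comp, dre_apply, cii, h1, h2,
        Equiv.Perm.coe_one, id]
      ring

/-- different indices give different simple reflections -/
theorem simple_inj {B W : Type*} {M : CoxeterMatrix B} [Group W] (cs : CoxeterSystem M W)
    (hsl : ∀ i j, i ≠ j → M i j = 2 ∨ M i j = 3) : Function.Injective cs.simple := by
  classical
  intro i j h
  by_contra hij
  have h1 := congrArg (cs.lift ⟨dre M, dre_lift M hsl⟩) h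
  rw [cs.lift_apply_simple (dre_lift M hsl), cs.lift_apply_simple (dre_lift M hsl)] at h1
  have h2 := congrFun (congrArg (fun g : Equiv.Perm (B → ℤ) => g (Pi.single i 1)) h1) i
  simp only [dre_apply, Pi.single_eq_same, Pi.single_eq_of_ne (Ne.symm hij)] at h2
  have cii : cartE M i i = 2 := by simp [cartE]
  rw [cii] at h2
  omega

/-- the index set of a finite Coxeter group is finite -/
theorem finite_index {B W : Type*} {M : CoxeterMatrix B} [Group W] [Finite W]
    (cs : CoxeterSystem M W) (hsl : ∀ i j, i ≠ j → M i j = 2 ∨ M i j = 3) : Finite B :=
  Finite.of_injective cs.simple (simple_inj cs hsl)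

end Pool.Agent.W838.DC
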