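import Pool.Agent.W933.DC.Cnt
import Pool.Agent.W591.DC.Pot
import Pool.Agent.W293.DC.EThree
import Pool.Agent.W978.DC.Lg
import Pool.Agent.W73.DC.NL
import Pool.Agent.W585.DC.GD
import Pool.Agent.W577.DC.Main
import Pool.Agent.W924.DC.FC
import Pool.Agent.W639.DC.Oct
import Pool.Agent.W935.DC.DM
import Pool.Agent.W74.DC.Edge
import Pool.Agent.W140.DC.Lft
import Pool.Agent.W101.DC.VA
import Pool.Agent.W991.DC.Zreg
import Pool.Agent.W398.DC.Sys1
import Pool.Agent.W395.DC.Sys2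
import Pool.Agent.W701.DC.Sys34
import Pool.Agent.W230.DC.Sy
import Pool.Agent.W227.DC.Final
import Pool.Agent.W540.DC.Slice
import Pool.Agent.W688.DC.TRSLY
import Pool.Agent.W688.DC.F2
import Pool.Agent.W368.DC.FX
import Pool.Agent.W828.DC.Vx
import Pool.Agent.W999.DC.Clm
import Pool.Agent.W318.DC.Clma
import Pool.Agent.W435.DC.Go
import Pool.Agent.W838.DC.Inj

/-!
# Delanoy's descent conjecture: assembly of all parts
-/

set_option autoImplicit false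

namespace Pool.Agent.W838.DC

open Sys

section abstract

variable {V X : Type*} [AddCommGroup V] (σ : Sys V X)

theorem a_cnt : S_CNT σ := Pool.Agent.W933.DC.cnt σ

theorem a_clm : S_CLM σ :=
  Pool.Agent.W999.DC.clm σ (a_cnt σ) (Pool.Agent.W540.DC.main σ) (Pool.Agent.W688.DC.sly σ)
    (Pool.Agent.W688.DC.tr σ)
    (Pool.Agent.W318.DC.clma σ (a_cnt σ) (Pool.Agent.W688.DC.sly σ) (Pool.Agent.W688.DC.tr σ))

theorem a_fx : S_FX σ :=
  Pool.Agent.W368.DC.fx σ (Pool.Agent.W540.DC.main σ) (Pool.Agent.W688.DC.sly σ)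
    (Pool.Agent.W688.DC.tr σ)

theorem a_fy : S_FY σ :=
  Pool.Agent.W368.DC.fy σ (Pool.Agent.W540.DC.main σ) (Pool.Agent.W688.DC.sly σ)
    (Pool.Agent.W688.DC.tr σ)

theorem a_f1 : S_F1 σ :=
  Pool.Agent.W368.DC.f1 σ (Pool.Agent.W540.DC.main σ) (Pool.Agent.W688.DC.sly σ)
    (Pool.Agent.W688.DC.tr σ)

theorem a_f2 : S_F2 σ :=
  Pool.Agent.W688.DC.f2 σ (Pool.Agent.W540.DC.main σ) (Pool.Agent.W688.DC.sly σ)
    (Pool.Agent.W688.DC.tr σ)

theorem a_vx : S_VX σ :=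
  Pool.Agent.W828.DC.vx (Pool.Agent.W540.DC.main σ) (Pool.Agent.W688.DC.sly σ)
    (Pool.Agent.W688.DC.tr σ)

theorem a_main : S_MAIN σ :=
  Pool.Agent.W577.DC.main_ (a_cnt σ) (Pool.Agent.W591.DC.pot σ (a_cnt σ))
    (Pool.Agent.W293.DC.e3 σ) (a_clm σ)
    (Pool.Agent.W577.DC.g_of (Pool.Agent.W435.DC.go σ (a_clm σ) (a_fx σ) (a_fy σ) (a_cnt σ))
      (Pool.Agent.W585.DC.gd σ))
    (Pool.Agent.W73.DC.nl σ (a_clm σ) (a_f1 σ)) (Pool.Agent.W978.DC.lg (a_f2 σ))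

theorem a_chain : S_CHAIN σ := Pool.Agent.W935.DC.chain σ (a_cnt σ)

theorem a_4c : S_4C σ := Pool.Agent.W924.DC.T_4C σ

theorem a_edge : S_EDGE σ :=
  Pool.Agent.W74.DC.edge σ (Pool.Agent.W639.DC.oct σ (a_4c σ))
    (Pool.Agent.W935.DC.dm σ (a_cnt σ)) (a_cnt σ)

theorem a_va : S_VA σ :=
  Pool.Agent.W101.DC.va (a_edge σ) (Pool.Agent.W140.DC.lft σ (a_chain σ)) (a_4c σ) (a_cnt σ)

theorem a_zreg : S_ZREG σ := Pool.Agent.W991.DC.zreg σ (a_va σ) (a_vx σ) (a_cnt σ)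

end abstract

section coxeter

theorem a_sys {B W : Type*} [Fintype B] [DecidableEq B] {M : CoxeterMatrix B} [Group W] [Finite W]
    (cs : CoxeterSystem M W) (hsl : ∀ i j, i ≠ j → M i j = 2 ∨ M i j = 3) (u : W) :
    S_SYS cs u :=
  Pool.Agent.W230.DC.sys cs hsl (Pool.Agent.W398.DC.sys1 cs hsl) (Pool.Agent.W395.DC.sys2 cs hsl)
    (Pool.Agent.W701.DC.sys3 cs hsl) (Pool.Agent.W701.DC.sys4 cs hsl) u

theorem a_final0 {B W : Type*} [Fintype B] [DecidableEq B] {M : CoxeterMatrix B} [Group W]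
    [Finite W] (cs : CoxeterSystem M W) (hsl : ∀ i j, i ≠ j → M i j = 2 ∨ M i j = 3) :
    S_FINAL cs :=
  Pool.Agent.W227.DC.final_ cs hsl (fun u => a_sys cs hsl u) (fun σ => a_cnt σ)
    (fun σ => a_chain σ) (fun σ => a_zreg σ) (fun σ => a_main σ)

theorem a_final {B W : Type*} {M : CoxeterMatrix B} [Group W]
    [Finite W] (cs : CoxeterSystem M W) (hsl : ∀ i j, i ≠ j → M i j = 2 ∨ M i j = 3) :
    S_FINAL cs := by
  classical
  have hf := finite_index cs hsl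
  have := Fintype.ofFinite B
  exact a_final0 cs hsl

theorem a_sys' {B W : Type*} [Finite B] {M : CoxeterMatrix B} [Group W] [Finite W]
    (cs : CoxeterSystem M W) (hsl : ∀ i j, i ≠ j → M i j = 2 ∨ M i j = 3) (u : W) :
    S_SYS cs u := by
  classical
  have := Fintype.ofFinite B
  exact a_sys cs hsl u

end coxeter

end Pool.Agent.W838.DC
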