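import Pool.Agent.W838.DC.Zs

/-!
# Part DES: the comparison map
-/

set_option autoImplicit false

namespace Pool.Agent.W838.DC.DesP

open Pool.Agent.W838.DC

section
variable {B : Type*} {M : CoxeterMatrix B} {W : Type*} [Group W] (cs : CoxeterSystem M W)

theorem ble_len {x y : W} (h : BLe cs x y) : cs.length x ≤ cs.length y := by
  induction h with
  | refl => exact le_refl _
  | tail _ hbc ih =>
    obtain ⟨t, _, _, hl⟩ := hbc
    exact ih.trans hl.le

theorem ble_trans {x y z : W} (h : BLe cs x y) (h' : BLe cs y z) : BLe cs x z :=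
  Relation.ReflTransGen.trans h h'

theorem ble_refl (x : W) : BLe cs x x := Relation.ReflTransGen.refl

open Classical in
/-- the simple reflection attached to a reflection -/
noncomputable def sp (t : W) : (RM cs).Group :=
  if ht : cs.IsReflection t then (rcs cs).simple ⟨t, ht⟩ else 1

theorem sp_eq {t : W} (ht : cs.IsReflection t) : sp cs t = (rcs cs).simple ⟨t, ht⟩ := dif_pos ht

theorem sp_sq {t : W} (ht : cs.IsReflection t) (x : (RM cs).Group) :
    sp cs t * (sp cs t * x) = x := by
  rw [sp_eq cs ht, ← mul_assoc, (rcs cs).simple_mul_simple_self, one_mul]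

theorem sp_len {t : W} (ht : cs.IsReflection t) (x : (RM cs).Group) :
    (rcs cs).length (sp cs t * x) = (rcs cs).length x + 1 ∨
      (rcs cs).length (sp cs t * x) + 1 = (rcs cs).length x := by
  rw [sp_eq cs ht]
  exact (rcs cs).length_simple_mul x ⟨t, ht⟩

theorem RM_comm {a b : W} (ha : cs.IsReflection a) (hb : cs.IsReflection b) (hab : a ≠ b)
    (hc : a * b = b * a) : (RM cs).M ⟨a, ha⟩ ⟨b, hb⟩ = 2 := by
  show orderOf (a * b) = 2
  apply orderOf_eq_prime
  · rw [pow_two]
    calc a * b * (a * b) = a * b * (b * a) := by rw [hc]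
      _ = a * (b * b) * a := by group
      _ = 1 := by rw [hb.mul_self, mul_one, ha.mul_self]
  · intro h
    apply hab
    have h1 : a = b⁻¹ := eq_inv_of_mul_eq_one_left h
    rw [h1, hb.inv]

theorem RM_braid {a b : W} (ha : cs.IsReflection a) (hb : cs.IsReflection b)
    (hc : a * b ≠ b * a) (h3 : a * b * a = b * a * b) : (RM cs).M ⟨a, ha⟩ ⟨b, hb⟩ = 3 := by
  show orderOf (a * b) = 3
  apply orderOf_eq_prime
  · calc (a * b) ^ 3 = (a * b * a) * (b * a * b) := by
          simp only [pow_succ, pow_zero, one_mul, mul_assoc]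
      _ = (a * b * a) * (a * b * a) := by rw [← h3]
      _ = a * b * (a * a) * b * a := by group
      _ = a * (b * b) * a := by rw [ha.mul_self]; group
      _ = 1 := by rw [hb.mul_self, mul_one, ha.mul_self]
  · intro h
    apply hc
    have h1 : a = b⁻¹ := eq_inv_of_mul_eq_one_left h
    rw [h1, hb.inv]

theorem sp_comm {a b : W} (ha : cs.IsReflection a) (hb : cs.IsReflection b) (hab : a ≠ b)
    (hc : a * b = b * a) (x : (RM cs).Group) :
    sp cs a * (sp cs b * x) = sp cs b * (sp cs a * x) := by
  have h1 := (rcs cs).simple_mul_simple_pow ⟨a, ha⟩ ⟨b, hb⟩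
  rw [RM_comm cs ha hb hab hc, ← sp_eq cs ha, ← sp_eq cs hb, pow_two] at h1
  have h2 := sp_sq cs ha
  have h3 := sp_sq cs hb
  have h4 : sp cs a * (sp cs b * (sp cs a * (sp cs b * (sp cs b * (sp cs a * x))))) =
      sp cs b * (sp cs a * x) := by
    calc sp cs a * (sp cs b * (sp cs a * (sp cs b * (sp cs b * (sp cs a * x)))))
        = (sp cs a * sp cs b * (sp cs a * sp cs b)) * (sp cs b * (sp cs a * x)) := by
          simp only [mul_assoc]
      _ = sp cs b * (sp cs a * x) := by rw [h1, one_mul]
  rw [h3, h2] at h4
  exact h4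

theorem sp_braid {a b : W} (ha : cs.IsReflection a) (hb : cs.IsReflection b)
    (hc : a * b ≠ b * a) (h3 : a * b * a = b * a * b) (x : (RM cs).Group) :
    sp cs a * (sp cs b * (sp cs a * x)) = sp cs b * (sp cs a * (sp cs b * x)) := by
  have h1 := (rcs cs).simple_mul_simple_pow ⟨a, ha⟩ ⟨b, hb⟩
  rw [RM_braid cs ha hb hc h3, ← sp_eq cs ha, ← sp_eq cs hb] at h1
  have h2 := sp_sq cs ha
  have h4 := sp_sq cs hb
  have h5 : sp cs a * (sp cs b * (sp cs a * (sp cs b * (sp cs a * (sp cs b *
      (sp cs b * (sp cs a * (sp cs b * x)))))))) = sp cs b * (sp cs a * (sp cs b * x)) := by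
    calc sp cs a * (sp cs b * (sp cs a * (sp cs b * (sp cs a * (sp cs b *
      (sp cs b * (sp cs a * (sp cs b * x))))))))
        = (sp cs a * sp cs b) ^ 3 * (sp cs b * (sp cs a * (sp cs b * x))) := by
          simp only [pow_succ, pow_zero, one_mul, mul_assoc]
      _ = sp cs b * (sp cs a * (sp cs b * x)) := by rw [h1, one_mul]
  rw [h4, h2, h4] at h5
  exact h5

/-- recursion on the length -/
theorem exists_phi {G : Type*} [Group G] (u : W) (T : W → W) (f : W → G) :
    ∃ φ : W → G, φ u = 1 ∧ ∀ v, v ≠ u → cs.length (T v * v) < cs.length v →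
      φ v = f (T v) * φ (T v * v) := by
  classical
  let F : (x : W) → ((y : W) → (measure cs.length).rel y x → G) → G := fun x rec =>
    if h : x ≠ u ∧ cs.length (T x * x) < cs.length x then f (T x) * rec (T x * x) h.2 else 1
  refine ⟨WellFounded.fix (measure cs.length).wf F, ?_, ?_⟩
  · rw [WellFounded.fix_eq]
    exact dif_neg (fun h => h.1 rfl)
  · intro v h1 h2
    rw [WellFounded.fix_eq]
    exact dif_pos ⟨h1, h2⟩

/-- facts on `t * v` -/
theorem stab_top {u v t : W} (h : Stab cs u v t) (huv : BLe cs u v) :
    BLe cs u (t * v) ∧ BLe cs (t * v) v ∧ cs.length v = cs.length (t * v) + 1 := by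
  have h1 := h.maps v ⟨huv, ble_refl cs v⟩
  refine ⟨h1.1, h1.2, ?_⟩
  have h2 := ble_len cs h1.2
  rcases h.len v ⟨huv, ble_refl cs v⟩ with h3 | h3
  · omega
  · exact h3

theorem des (_h1 : S_RES cs) (h2 : ∀ u v a b : W, BLe cs u v → Stab cs u v a →
    Stab cs u v b → a ≠ b →
    Stab cs u (a * v) b ∧ (a * b ≠ b * a → Stab cs u (b * (a * v)) a)) (h3 : S_EC cs) (h4 : S_EN cs) (h5 : S_HEX cs)
    (h6 : S_DD (rcs cs)) : S_DES cs := by
  classical
  intro u w hT
  obtain ⟨T, hTd⟩ : ∃ T : W → W, ∀ v, BLt cs u v → BLe cs v w → Stab cs u v (T v) := by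
    refine ⟨fun v => if h : ∃ t, Stab cs u v t then h.choose else 1, fun v hv hw => ?_⟩
    have h := hT v hv hw
    show Stab cs u v (if h : ∃ t, Stab cs u v t then h.choose else 1)
    rw [dif_pos h]
    exact h.choose_spec
  obtain ⟨φ, hφu, hφ⟩ := exists_phi cs u T (sp cs)
  refine ⟨φ, hφu, ?_⟩
  suffices H : ∀ n : ℕ, ∀ v, cs.length v = n → InInt cs u w v →
      ((rcs cs).length (φ v) + cs.length u = cs.length v ∧
      (∀ t, cs.IsReflection t → (Stab cs u v t ↔
        (rcs cs).length (sp cs t * φ v) < (rcs cs).length (φ v))) ∧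
      (∀ t, Stab cs u v t → φ (t * v) = sp cs t * φ v)) by
    intro v hv
    obtain ⟨hA, hB, hC⟩ := H _ v rfl hv
    refine ⟨hA, fun t ht => ?_, fun t ht h => ?_⟩
    · rw [← sp_eq cs ht]; exact hB t ht
    · rw [← sp_eq cs ht]; exact hC t h
  intro n
  induction n using Nat.strong_induction_on with
  | _ n ih =>
    intro v hvn hv
    obtain ⟨huv, hvw⟩ := hv
    by_cases hvu : v = u
    · -- base case
      subst hvu
      have hno : ∀ t, ¬ Stab cs v v t := by
        intro t ht
        obtain ⟨g1, g2, g3⟩ := stab_top cs ht (ble_refl cs v)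
        have g4 := ble_len cs g1
        omega
      rw [hφu]
      refine ⟨?_, fun t ht => ?_, fun t ht => absurd ht (hno t)⟩
      · rw [(rcs cs).length_one, zero_add]
      · constructor
        · intro h; exact absurd h (hno t)
        · intro h
          rw [(rcs cs).length_one] at h
          omega
    · have hlt : BLt cs u v := ⟨huv, fun h => hvu h.symm⟩
      have hSa := hTd v hlt hvw
      obtain ⟨a, ha⟩ : ∃ a, a = T v := ⟨_, rfl⟩
      rw [← ha] at hSa
      have hra := hSa.refl
      -- the induction hypothesis for smaller elements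
      have IH : ∀ x, BLe cs u x → BLe cs x v → cs.length x < cs.length v →
          ((rcs cs).length (φ x) + cs.length u = cs.length x ∧
          (∀ t, cs.IsReflection t → (Stab cs u x t ↔
            (rcs cs).length (sp cs t * φ x) < (rcs cs).length (φ x))) ∧
          (∀ t, Stab cs u x t → φ (t * x) = sp cs t * φ x)) := by
        intro x hx1 hx2 hx3
        exact ih _ (hvn ▸ hx3) x rfl ⟨hx1, ble_trans cs hx2 hvw⟩
      obtain ⟨a1, a2, a3⟩ := stab_top cs hSa huv
      have hφv : φ v = sp cs a * φ (a * v) := by
        have := hφ v hvu (by rw [← ha]; omega)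
        rw [← ha] at this
        exact this
      have hφav : φ (a * v) = sp cs a * φ v := by rw [hφv, sp_sq cs hra]
      obtain ⟨avA, avB, avC⟩ := IH (a * v) a1 a2 (by omega)
      have haav : a * (a * v) = v := by rw [← mul_assoc, hra.mul_self, one_mul]
      -- A
      have hA : (rcs cs).length (φ v) + cs.length u = cs.length v := by
        have g1 : ¬ Stab cs u (a * v) a := by
          intro h
          obtain ⟨g1, g2, g3⟩ := stab_top cs h a1
          rw [haav] at g3
          omega
        have g2 : ¬ (rcs cs).length (sp cs a * φ (a * v)) < (rcs cs).length (φ (a * v)) :=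
          fun h => g1 ((avB a hra).mpr h)
        rw [hφv]
        rcases sp_len cs hra (φ (a * v)) with g3 | g3 <;> omega
      have hlav : (rcs cs).length (φ v) = (rcs cs).length (φ (a * v)) + 1 := by omega
      -- relations of a with b
      have hbraid : ∀ b, cs.IsReflection b → a * b ≠ b * a → a * b * a = b * a * b :=
        fun b hb hc => (h5 a b hra hb hc).1
      have hC : ∀ b, Stab cs u v b → φ (b * v) = sp cs b * φ v := by
        intro b hSb
        have hrb := hSb.refl
        by_cases hab : b = a
        · subst hab; exact hφav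
        · have hab' : a ≠ b := fun h => hab h.symm
          obtain ⟨e1, e2⟩ := h2 u v a b huv hSa hSb hab'
          obtain ⟨e3, e4⟩ := h2 u v b a huv hSb hSa hab
          obtain ⟨b1, b2, b3⟩ := stab_top cs hSb huv
          obtain ⟨bvA, bvB, bvC⟩ := IH (b * v) b1 b2 (by omega)
          have f1 := avC b e1
          have f2 := bvC a e3
          by_cases hc : a * b = b * a
          · have f3 : a * (b * v) = b * (a * v) := by rw [← mul_assoc, hc, mul_assoc]
            rw [f3] at f2
            -- f2 : φ (b * (a * v)) = sp a * φ (b * v)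
            have f4 : sp cs a * φ (b * v) = sp cs b * φ (a * v) := f2.symm.trans f1
            calc φ (b * v) = sp cs a * (sp cs a * φ (b * v)) := (sp_sq cs hra _).symm
              _ = sp cs a * (sp cs b * φ (a * v)) := by rw [f4]
              _ = sp cs b * (sp cs a * φ (a * v)) := sp_comm cs hra hrb hab' hc _
              _ = sp cs b * φ v := by rw [← hφv]
          · have hc' : b * a ≠ a * b := fun h => hc h.symm
            have e2' := e2 hc
            have e4' := e4 hc'
            -- bav, abav ; abv, babv
            obtain ⟨c1, c2, c3⟩ := stab_top cs e1 a1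
            obtain ⟨_, _, bavC⟩ := IH (b * (a * v)) c1 (ble_trans cs c2 a2) (by omega)
            obtain ⟨d1, d2, d3⟩ := stab_top cs e3 b1
            obtain ⟨_, _, abvC⟩ := IH (a * (b * v)) d1 (ble_trans cs d2 b2) (by omega)
            have f3 := bavC a e2'
            have f4 := abvC b e4'
            have hbr := hbraid b hrb hc
            have f5 : a * (b * (a * v)) = b * (a * (b * v)) := by
              calc a * (b * (a * v)) = (a * b * a) * v := by simp only [mul_assoc]
                _ = (b * a * b) * v := by rw [hbr]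
                _ = b * (a * (b * v)) := by simp only [mul_assoc]
            -- sp a φ(bav) = sp b φ(abv)
            have f6 : sp cs a * φ (b * (a * v)) = sp cs b * φ (a * (b * v)) := by
              rw [← f3, ← f4, f5]
            rw [f1, f2] at f6
            -- f6 : sp a (sp b φ(av)) = sp b (sp a φ(bv))
            calc φ (b * v) = sp cs a * (sp cs b * (sp cs b * (sp cs a * φ (b * v)))) := by
                  rw [sp_sq cs hrb, sp_sq cs hra]
              _ = sp cs a * (sp cs b * (sp cs a * (sp cs b * φ (a * v)))) := by rw [f6]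
              _ = sp cs b * (sp cs a * (sp cs b * (sp cs b * φ (a * v)))) :=
                  sp_braid cs hra hrb hc hbr _
              _ = sp cs b * φ v := by rw [sp_sq cs hrb, ← hφv]
      refine ⟨hA, fun b hrb => ?_, hC⟩
      constructor
      · intro hSb
        have g1 := hC b hSb
        obtain ⟨b1, b2, b3⟩ := stab_top cs hSb huv
        obtain ⟨bvA, _, _⟩ := IH (b * v) b1 b2 (by omega)
        rw [← g1]
        omega
      · intro hb
        by_cases hab : b = a
        · subst hab; exact hSa
        · have hab' : a ≠ b := fun h => hab h.symm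
          have hda : (rcs cs).length (sp cs a * φ v) < (rcs cs).length (φ v) := by
            rw [← hφav]; omega
          have hsub : (⟨a, hra⟩ : {t : W // cs.IsReflection t}) ≠ ⟨b, hrb⟩ :=
            fun h => hab' (congrArg Subtype.val h)
          have hDD := h6 ⟨a, hra⟩ ⟨b, hrb⟩ (φ v) hsub (by rw [← sp_eq cs hra]; exact hda)
            (by rw [← sp_eq cs hrb]; exact hb)
          rw [← sp_eq cs hra, ← sp_eq cs hrb] at hDD
          by_cases hc : a * b = b * a
          · obtain ⟨z, hz1, hz2⟩ := hDD.1 (RM_comm cs hra hrb hab' hc)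
            have g1 : φ (a * v) = sp cs b * z := by rw [hφav, hz1, sp_sq cs hra]
            have g2 : Stab cs u (a * v) b := by
              rw [avB b hrb, g1, sp_sq cs hrb, ← g1]
              omega
            exact h3 u v a b hSa g2 hab' hc
          · have hbr := hbraid b hrb hc
            obtain ⟨z, hz1, hz2⟩ := hDD.2 (RM_braid cs hra hrb hc hbr)
            have g1 : φ (a * v) = sp cs b * (sp cs a * z) := by rw [hφav, hz1, sp_sq cs hra]
            have g2 : Stab cs u (a * v) b := by
              rw [avB b hrb]
              have g3 : sp cs b * φ (a * v) = sp cs a * z := by rw [g1, sp_sq cs hrb]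
              rw [g3]
              rcases sp_len cs hra z with g4 | g4 <;> omega
            obtain ⟨c1, c2, c3⟩ := stab_top cs g2 a1
            obtain ⟨bavA, bavB, _⟩ := IH (b * (a * v)) c1 (ble_trans cs c2 a2) (by omega)
            have g5 : φ (b * (a * v)) = sp cs a * z := by rw [avC b g2, g1, sp_sq cs hrb]
            have g6 : Stab cs u (b * (a * v)) a := by
              rw [bavB a hra, g5, sp_sq cs hra, ← g5]
              omega
            exact h4 u v a b hSa g2 g6 hc

end

end Pool.Agent.W838.DC.DesP
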