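import Pool.Agent.W838.DC.All
import Pool.Agent.W838.DC.Des
import Pool.Agent.W284.DC.TStar
import Pool.Agent.W230.DC.Hx
import Pool.Agent.W395.DC.ResEc
import Pool.Agent.W803.DC.E12
import Pool.Agent.W589.DC.EN
import Pool.Agent.W397.DC.DD
import Pool.Agent.W143.DC.Iso

/-!
# Zircon intervals are lower intervals: assembly
-/

set_option autoImplicit false

namespace Pool.Agent.W838.DC

open Sys

variable {B W : Type*} {M : CoxeterMatrix B} [Group W] [Finite W]
  (cs : CoxeterSystem M W) (hsl : ∀ i j, i ≠ j → M i j = 2 ∨ M i j = 3)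

include hsl

theorem b_sys : S_SYS cs 1 := by
  have := finite_index cs hsl
  exact a_sys' cs hsl 1

theorem b_hex : S_HEX cs := Pool.Agent.W230.DC.hex cs (b_sys cs hsl)

theorem b_comm : S_COMM cs := Pool.Agent.W230.DC.comm cs (b_sys cs hsl)

theorem b_des : S_DES cs :=
  DesP.des cs (Pool.Agent.W395.DC.res cs)
    (Pool.Agent.W803.DC.e12' (Pool.Agent.W395.DC.res cs) (b_hex cs hsl))
    (Pool.Agent.W395.DC.ec cs (b_comm cs hsl)) (Pool.Agent.W589.DC.en cs (b_hex cs hsl))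
    (b_hex cs hsl) (Pool.Agent.W397.DC.dd (rcs cs))

theorem b_iso : S_ISO cs := Pool.Agent.W143.DC.iso cs (Pool.Agent.W395.DC.res cs) (b_des cs hsl)

/-- the Coxeter matrix on the reflections is simply laced -/
theorem b_RM (s t : {t : W // cs.IsReflection t}) (h : s ≠ t) :
    (RM cs).M s t = 2 ∨ (RM cs).M s t = 3 := by
  have hne : s.1 ≠ t.1 := fun h1 => h (Subtype.ext h1)
  by_cases hc : s.1 * t.1 = t.1 * s.1
  · exact Or.inl (DesP.RM_comm cs s.2 t.2 hne hc)
  · exact Or.inr (DesP.RM_braid cs s.2 t.2 hc (b_hex cs hsl s.1 t.1 s.2 t.2 hc).1)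

theorem b_final (u w : W) (huw : BLe cs u w) (hz : IsZircon cs u w) :
    ∃ (x : (RM cs).Group) (φ : {y // InInt cs u w y} ≃ {y // InInt (rcs cs) 1 x y}),
      ∀ a b, BLe cs a.1 b.1 ↔ BLe (rcs cs) (φ a).1 (φ b).1 := by
  apply b_iso cs hsl u w huw
  intro v h1 h2
  apply Pool.Agent.W284.DC.tstar cs (a_final cs hsl) u v h1
  intro v' h3 h4
  exact hz v' h3 (Relation.ReflTransGen.trans h4 h2)

end Pool.Agent.W838.DC
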