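import Pool.Agent.W838.DC.Slice

/-! # Splitting of the part CLM -/

set_option autoImplicit false

namespace Pool.Agent.W838.DC

open Sys Tab

variable {V X : Type*} [AddCommGroup V] (σ : Sys V X)

/-- the comparisons of stage 1 -/
structure Claims1 (h : X → V → ℤ) (x : X) : Prop where
  perp : ∀ z b, σ.Psi x z → σ.Psi x b → σ.ip z b = 0 → h (σ.r b x) z ≤ h x z
  P1 : ∀ z b, σ.Arr x z b → h x b < h (σ.r b x) z
  M1 : ∀ z b, σ.Arr x z b → h x b = h (σ.r z x) (z + b)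
  M2 : ∀ z b, σ.Dbl x z b → h x b = h (σ.r z x) (b - z)
  M3 : ∀ z b, σ.C6 x z b → h x z = h (σ.r b x) (z + b)
  M4 : ∀ z b, σ.C6 x z b → h x (z + b) = h (σ.r b x) z

/-- the value of the coded state `s = 6 * vertex + root` -/
def sval {σ : Sys V X} (sl : Slice σ) (h : X → V → ℤ) (s : ℕ) : ℤ := h (sl.e (s / 6)) (sl.ρ (s % 6))

/-- all goals of a stage hold for every first step of the smaller state -/
def GoalsOK {σ : Sys V X} (sl : Slice σ) (h : X → V → ℤ) (Y g stage : ℕ) : Prop :=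
  ∀ a y γ st, (a, y, γ, st) ∈ goalsAt Y g stage → ∀ f < 6, arr Y y γ f = true →
    (h (sl.e (T y f)) (sl.ρ γ) ≤ sval sl h a) ∧
    (st = true → h (sl.e (T y f)) (sl.ρ γ) < sval sl h a)

/-- CLMA: the finite check, translated -/
def S_CLMA : Prop := ∀ h, σ.IsPot h → ∀ (sl : Slice σ) (Y m : ℕ), SliceY σ sl Y m →
  ∀ g < 24, bit m g = true →
  (∀ y < 24, y ≠ g → σ.Reach (sl.e g) (sl.e y) → σ.Claims h (sl.e y)) →
  GoalsOK sl h Y g 1 ∧ (Claims1 σ h (sl.e g) → GoalsOK sl h Y g 2)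

end Pool.Agent.W838.DC
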