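import Mathlib

/-!
# Abstract setting for Delanoy's descent conjecture (MP_92a1a0_co)

`Sys V X`: a finite simply laced root system `Φ ⊆ V`, a set `X` (in the application: the group `W`) with
reflections `r a : X → X`, a label map `lab x : V →+ V` (in the application `b ↦ - x⁻¹ b`), a measure `mu`
(in the application the length) and a predicate `P` (in the application `u ≤ x`).
A positive root `a` is above `x` (`R x a`) if its label is positive; going along it (`r a x`) DEcreases `mu`.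
-/

set_option autoImplicit false

namespace Pool.Agent.W838.DC

structure Sys (V X : Type*) [AddCommGroup V] where
  Φ : Finset V
  ip : V → V → ℤ
  ip_add : ∀ a b c, ip (a + b) c = ip a c + ip b c
  ip_symm : ∀ a b, ip a b = ip b a
  ip_self : ∀ a ∈ Φ, ip a a = 2
  ip_bd : ∀ a ∈ Φ, ∀ b ∈ Φ, a ≠ b → a ≠ -b → -1 ≤ ip a b ∧ ip a b ≤ 1
  refl_mem : ∀ a ∈ Φ, ∀ b ∈ Φ, b - ip b a • a ∈ Φ
  ht : V →+ ℤ
  ht_ne : ∀ a ∈ Φ, ht a ≠ 0
  S : Finset V
  S_sub : ∀ s ∈ S, s ∈ Φ ∧ ht s = 1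
  S_ex : ∀ b ∈ Φ, 0 < ht b → b ∈ S ∨ ∃ s ∈ S, ip b s = 1
  lab : X → V →+ V
  lab_mem : ∀ x, ∀ a ∈ Φ, lab x a ∈ Φ
  lab_ip : ∀ x a b, ip (lab x a) (lab x b) = ip a b
  r : V → X → X
  lab_r : ∀ a ∈ Φ, ∀ x b, lab (r a x) b = lab x (b - ip b a • a)
  ext : ∀ x y, (∀ a, lab x a = lab y a) → x = y
  mu : X → ℕ
  mu_card : ∀ x, mu x = (Φ.filter (fun a => 0 < ht a ∧ 0 < ht (lab x a))).card
  P : X → Prop
  P_down : ∀ a ∈ Φ, ∀ x, 0 < ht a → ht (lab x a) < 0 → P x → P (r a x)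

namespace Sys

variable {V X : Type*} [AddCommGroup V] (σ : Sys V X)

/-- `a` is a positive root with positive label at `x` -/
def R (x : X) (a : V) : Prop := a ∈ σ.Φ ∧ 0 < σ.ht a ∧ 0 < σ.ht (σ.lab x a)

/-- `a` is a positive root with negative label at `x` -/
def N (x : X) (a : V) : Prop := a ∈ σ.Φ ∧ 0 < σ.ht a ∧ σ.ht (σ.lab x a) < 0

/-- `a` is above `x` and the neighbour `r a x` is in the region -/
def Psi (x : X) (a : V) : Prop := σ.R x a ∧ σ.P (σ.r a x)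

/-- `z → b` at `x` -/
def Arr (x : X) (z b : V) : Prop :=
  σ.Psi x z ∧ σ.Psi x b ∧ σ.ip z b = -1 ∧ ¬ σ.P (σ.r (z + b) x) ∧ σ.P (σ.r z (σ.r b x))

/-- `z ⇒ b` at `x` -/
def Dbl (x : X) (z b : V) : Prop :=
  σ.Psi x z ∧ σ.Psi x b ∧ σ.ip z b = 1 ∧ σ.N x (b - z)

/-- the whole plane of `z, b` is in the region -/
def C6 (x : X) (z b : V) : Prop :=
  σ.Psi x z ∧ σ.Psi x b ∧ σ.ip z b = -1 ∧ σ.P (σ.r (z + b) x)

/-- `y` can be reached from `x` inside the region -/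
def Reach : X → X → Prop := Relation.ReflTransGen (fun x y => ∃ a, σ.Psi x a ∧ y = σ.r a x)

/-- the three plane conditions at `x` -/
structure VReg (x : X) : Prop where
  perp : ∀ a b, σ.Psi x a → σ.Psi x b → σ.ip a b = 0 → σ.P (σ.r a (σ.r b x))
  neg : ∀ a b, σ.Psi x a → σ.Psi x b → σ.ip a b = -1 → σ.P (σ.r a (σ.r b x)) ∨ σ.P (σ.r b (σ.r a x))
  pos : ∀ a b, σ.Psi x a → σ.Psi x b → σ.ip a b = 1 → σ.N x (b - a) → σ.P (σ.r a (σ.r b x))

/-- the region above `x` is regular -/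
def RegUp (x : X) : Prop := ∀ y, σ.Reach x y → σ.VReg y

/-- `h` is the potential: the maximal height of a label along chains of `→`-moves -/
structure IsPot (h : X → V → ℤ) : Prop where
  lab : ∀ x a, σ.ht (σ.lab x a) ≤ h x a
  step : ∀ x z b, σ.Arr x z b → h (σ.r b x) z ≤ h x z
  elim : ∀ x z, h x z = σ.ht (σ.lab x z) ∨ ∃ b, σ.Arr x z b ∧ h x z = h (σ.r b x) z

/-- all the comparisons of the potential at the vertex `x` -/
structure Claims (h : X → V → ℤ) (x : X) : Prop where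
  perp : ∀ z b, σ.Psi x z → σ.Psi x b → σ.ip z b = 0 → h (σ.r b x) z ≤ h x z
  P1 : ∀ z b, σ.Arr x z b → h x b < h (σ.r b x) z
  M1 : ∀ z b, σ.Arr x z b → h x b = h (σ.r z x) (z + b)
  D2 : ∀ z b, σ.Dbl x z b → h (σ.r b x) z ≤ h x z
  P2 : ∀ z b, σ.Dbl x z b → h x b ≤ h x z
  M2 : ∀ z b, σ.Dbl x z b → h x b = h (σ.r z x) (b - z)
  M3 : ∀ z b, σ.C6 x z b → h x z = h (σ.r b x) (z + b)
  M4 : ∀ z b, σ.C6 x z b → h x (z + b) = h (σ.r b x) z
  C9 : ∀ z b, σ.C6 x z b → h x z ≤ h x (z + b)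

end Sys

end Pool.Agent.W838.DC
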