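import Pool.Agent.W838.DC.TabYM
import Pool.Agent.W838.DC.Basic
import Pool.Agent.W838.DC.Stm3

/-!
# Slices of type `A_3`: statements

`Slice σ` is a coset of a reflection subgroup of type `A_3`, parametrised by the tables of `Tab.lean`.
-/

set_option autoImplicit false

namespace Pool.Agent.W838.DC

open Sys Tab

variable {V X : Type*} [AddCommGroup V]

structure Slice (σ : Sys V X) where
  ρ : ℕ → V
  e : ℕ → X
  mem : ∀ k < 6, ρ k ∈ σ.Φ ∧ 0 < σ.ht (ρ k)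
  ipρ : ∀ i < 6, ∀ j < 6, σ.ip (ρ i) (ρ j) = (ipN i j : ℤ) - 1
  addρ : ∀ i < 6, ∀ j < 6, addN i j ≠ 7 → ρ i + ρ j = ρ (addN i j)
  subρ : ∀ i < 6, ∀ j < 6, subN i j ≠ 7 → ρ i - ρ j = ρ (subN i j)
  eT : ∀ g < 24, ∀ k < 6, σ.r (ρ k) (e g) = e (T g k)
  esgn : ∀ g < 24, ∀ k < 6, (0 < σ.ht (σ.lab (e g) (ρ k)) ↔ sgn g k = true)

/-- `a` is (up to sign) one of the roots of the slice -/
def Slice.In {σ : Sys V X} (sl : Slice σ) (a : V) : Prop := ∃ k < 6, a = sl.ρ k ∨ a = - sl.ρ k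

variable (σ : Sys V X)

/-- SLICE: every chain of three roots and every vertex lie in a slice -/
def S_SLICE : Prop := ∀ a ∈ σ.Φ, ∀ b ∈ σ.Φ, ∀ c ∈ σ.Φ, σ.ip a b = -1 → σ.ip b c = -1 →
  σ.ip a c = 0 → ∀ x, ∃ sl : Slice σ, (∃ g < 24, sl.e g = x) ∧ sl.In a ∧ sl.In b ∧ sl.In c

/-- the masks belonging to a slice -/
structure SliceY (sl : Slice σ) (Y m : ℕ) : Prop where
  mem : (Y, m) ∈ YM
  P : ∀ g < 24, (bit Y g = true ↔ σ.P (sl.e g))
  reg : ∀ g < 24, bit Y g = true → σ.RegUp (sl.e g) → bit m g = true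

/-- SLY: the masks exist -/
def S_SLY : Prop := ∀ sl : Slice σ, ∃ Y m, SliceY σ sl Y m

/-- TR: translation of the relations (only the correspondence of `Y` and `P` is used) -/
def S_TR : Prop := ∀ (sl : Slice σ) (Y : ℕ), (∀ g < 24, (bit Y g = true ↔ σ.P (sl.e g))) →
  ∀ g < 24, (σ.VReg (sl.e g) → vreg Y g = true) ∧ ∀ z < 6,
  (psi Y g z = true ↔ σ.Psi (sl.e g) (sl.ρ z)) ∧
  (sgn g z = true ↔ σ.R (sl.e g) (sl.ρ z)) ∧ (sgn g z = false ↔ σ.N (sl.e g) (sl.ρ z)) ∧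
  ∀ b < 6, (arr Y g z b = true ↔ σ.Arr (sl.e g) (sl.ρ z) (sl.ρ b)) ∧
    (dbl Y g z b = true ↔ σ.Dbl (sl.e g) (sl.ρ z) (sl.ρ b)) ∧
    (c6 Y g z b = true ↔ σ.C6 (sl.e g) (sl.ρ z) (sl.ρ b))

namespace Tab

theorem T_lt : ∀ g < 24, ∀ k < 6, T g k < 24 := by decide +kernel
theorem addN_lt : ∀ i < 6, ∀ j < 6, ipN i j = 0 → addN i j < 6 := by decide +kernel
theorem addN_lt' : ∀ i < 6, ∀ j < 6, addN i j ≠ 7 → addN i j < 6 := by decide +kernel
theorem subN_lt : ∀ i < 6, ∀ j < 6, subN i j ≠ 7 → subN i j < 6 := by decide +kernel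
theorem ipN_self : ∀ i < 6, ipN i i = 3 := by decide +kernel
theorem ipN_le : ∀ i < 6, ∀ j < 6, i ≠ j → ipN i j ≤ 2 := by decide +kernel
theorem sub_cases : ∀ i < 6, ∀ j < 6, ipN i j = 2 → (subN i j < 6 ∧ subN j i = 7) ∨ (subN j i < 6 ∧ subN i j = 7) := by
  decide +kernel
theorem up_lt : ∀ g < 24, ∀ k < 6, sgn g k = true → g < T g k := by decide +kernel
theorem down_lt : ∀ g < 24, ∀ k < 6, sgn g k = false → T g k < g := by decide +kernel

end Tab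

namespace Slice

variable {σ} (sl : Slice σ)

theorem In.neg {a : V} (h : sl.In a) : sl.In (-a) := by
  obtain ⟨k, hk, h1 | h1⟩ := h
  · exact ⟨k, hk, Or.inr (by rw [h1])⟩
  · exact ⟨k, hk, Or.inl (by rw [h1, neg_neg])⟩

/-- a positive root of the slice is one of the `ρ k` -/
theorem In.pos {a : V} (h : sl.In a) (pa : 0 < σ.ht a) : ∃ k < 6, a = sl.ρ k := by
  obtain ⟨k, hk, h1 | h1⟩ := h
  · exact ⟨k, hk, h1⟩
  · exfalso
    rw [h1, map_neg] at pa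
    have := (sl.mem k hk).2
    omega

theorem ρ_inj {i j : ℕ} (hi : i < 6) (hj : j < 6) (h : sl.ρ i = sl.ρ j) : i = j := by
  by_contra hne
  have h1 := sl.ipρ i hi j hj
  have h2 := Tab.ipN_le i hi j hj hne
  rw [h, σ.ip_self _ (sl.mem j hj).1] at h1
  omega

theorem In.add {a b : V} (ha : sl.In a) (hb : sl.In b) (h : σ.ip a b = -1) : sl.In (a + b) := by
  obtain ⟨i, hi, h1⟩ := ha
  obtain ⟨j, hj, h2⟩ := hb
  have e := sl.ipρ i hi j hj
  rcases h1 with rfl | rfl <;> rcases h2 with rfl | rfl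
  · have h3 : ipN i j = 0 := by omega
    have h4 := Tab.addN_lt i hi j hj h3
    exact ⟨_, h4, Or.inl (sl.addρ i hi j hj (by omega))⟩
  · rw [σ.ip_neg_right, e] at h
    have h3 : ipN i j = 2 := by omega
    rcases Tab.sub_cases i hi j hj h3 with ⟨h4, -⟩ | ⟨h4, -⟩
    · exact ⟨_, h4, Or.inl (by rw [← sl.subρ i hi j hj (by omega)]; abel)⟩
    · exact ⟨_, h4, Or.inr (by rw [← sl.subρ j hj i hi (by omega)]; abel)⟩
  · rw [σ.ip_neg, e] at h
    have h3 : ipN i j = 2 := by omega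
    rcases Tab.sub_cases i hi j hj h3 with ⟨h4, -⟩ | ⟨h4, -⟩
    · exact ⟨_, h4, Or.inr (by rw [← sl.subρ i hi j hj (by omega)]; abel)⟩
    · exact ⟨_, h4, Or.inl (by rw [← sl.subρ j hj i hi (by omega)]; abel)⟩
  · rw [σ.ip_neg, σ.ip_neg_right, e] at h
    have h3 : ipN i j = 0 := by omega
    have h4 := Tab.addN_lt i hi j hj h3
    exact ⟨_, h4, Or.inr (by rw [← sl.addρ i hi j hj (by omega)]; abel)⟩

theorem In.sub {a b : V} (ha : sl.In a) (hb : sl.In b) (h : σ.ip a b = 1) : sl.In (a - b) := by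
  rw [sub_eq_add_neg]
  exact In.add sl ha (In.neg sl hb) (by rw [σ.ip_neg_right, h])

end Slice

end Pool.Agent.W838.DC
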