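import Pool.Agent.W838.DC.Defs

/-!
# Statements of the parts

Every part is a `def S_XXX : Prop` about one system `σ` (all of them are meant to be proved for every `σ`; the
hypotheses of the other parts are listed in the subtask).
-/

set_option autoImplicit false

namespace Pool.Agent.W838.DC

open Sys

variable {V X : Type*} [AddCommGroup V] (σ : Sys V X)

/-- `z` is not the sum of two roots above `x` -/
def Indec (x : X) (z : V) : Prop := ∀ b c, σ.R x b → σ.R x c → z ≠ b + c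

/-- CNT: going along a root above `x` decreases `mu`, by exactly one if the root is indecomposable in `R x`,
by at least three otherwise -/
def S_CNT : Prop := ∀ x a, σ.R x a → σ.mu (σ.r a x) < σ.mu x ∧
  (Indec σ x a → σ.mu (σ.r a x) + 1 = σ.mu x) ∧
  ((∃ b c, σ.R x b ∧ σ.R x c ∧ a = b + c) → σ.mu (σ.r a x) + 3 ≤ σ.mu x)

/-- POT: the potential exists -/
def S_POT : Prop := ∃ h : X → V → ℤ, σ.IsPot h

/-- E3: a root above `x`, indecomposable in `R x`, is a simple root above `x` plus roots of `N x` -/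
def S_E3 : Prop := ∀ x z, σ.R x z → Indec σ x z →
  ∃ s ∈ σ.S, σ.R x s ∧ z - s ∈ AddSubmonoid.closure {n : V | σ.N x n}

/-- FX (rank 3) -/
def S_FX : Prop := ∀ x, σ.RegUp x → ∀ a n b, σ.R x a → σ.N x n → σ.Psi x b →
  σ.ip a n = -1 → σ.ip n b = -1 → σ.ip a b = 0 → ¬ σ.P (σ.r a x) → σ.Psi x (a + n) →
  σ.R x (n + b) → ¬ σ.P (σ.r (n + b) x) → ¬ σ.P (σ.r (a + n) (σ.r b x))

/-- FY (rank 3) -/
def S_FY : Prop := ∀ x, σ.RegUp x → ∀ z f y, σ.Arr x z f → σ.Psi x y → σ.ip z y = 0 →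
  σ.ip f y = -1 → σ.P (σ.r f (σ.r y x)) → σ.P (σ.r z (σ.r f (σ.r y x)))

/-- F1 (rank 3) -/
def S_F1 : Prop := ∀ x, σ.RegUp x → ∀ c d b, σ.C6 x c d → σ.Arr x (c + d) b →
  σ.Arr x c b ∨ σ.Arr x d b ∨ (σ.C6 x c b ∧ σ.Arr x d (b + c)) ∨ (σ.C6 x d b ∧ σ.Arr x c (b + d))

/-- F2 (rank 3): a simple root without `→`-predecessor keeps this property -/
def S_F2 : Prop := ∀ x, σ.RegUp x → ∀ s ∈ σ.S, σ.Psi x s → (∀ z, ¬ σ.Arr x z s) →
  ∀ b, σ.Psi x b → b ≠ s → ¬ σ.R x (b - s) →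
  σ.Psi (σ.r b x) s ∧ ∀ z, ¬ σ.Arr (σ.r b x) z s

/-- CLM: the potential satisfies all the comparisons -/
def S_CLM : Prop := ∀ h, σ.IsPot h → ∀ x, σ.RegUp x → σ.Claims h x

/-- G -/
def S_G : Prop := ∀ h, σ.IsPot h → ∀ x, σ.RegUp x → ∀ y z, σ.Psi x y → σ.Psi x z →
  z - y ∈ AddSubmonoid.closure {n : V | σ.N x n} → h x z ≤ h x y

/-- NL -/
def S_NL : Prop := ∀ h, σ.IsPot h → ∀ x, σ.RegUp x → ∀ z b, σ.Arr x z b →
  ∃ z', σ.Psi x z' ∧ Indec σ x z' ∧ h x b < h x z'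

/-- LG: from local to global -/
def S_LG : Prop := ∀ x, σ.RegUp x → ∀ s ∈ σ.S, σ.Psi x s → (∀ z, ¬ σ.Arr x z s) →
  ∀ y, σ.Reach x y → σ.P (σ.r s y)

/-- MAIN: the abstract form of the theorem -/
def S_MAIN : Prop := ∀ x, σ.RegUp x → (∃ a, σ.Psi x a) → (∀ s ∈ σ.S, σ.R x s → σ.Psi x s) →
  ∃ s ∈ σ.S, σ.R x s ∧ ∀ y, σ.Reach x y → σ.P (σ.r s y)

end Pool.Agent.W838.DC
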