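import Pool.Agent.W838.DC.Stm

/-!
# Statements: from special matchings to regularity; the system of a Coxeter group; the final theorem
-/

set_option autoImplicit false

namespace Pool.Agent.W838.DC

open Sys

variable {V X : Type*} [AddCommGroup V] (σ : Sys V X)

/-- `z` is covered by `y` (one step inside the region, `mu` drops by one) -/
def Cv (y z : X) : Prop := ∃ a, σ.Psi y a ∧ z = σ.r a y ∧ σ.mu z + 1 = σ.mu y

/-- `M` is a special matching of the part of the region reachable from `v` -/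
structure SM (v : X) (M : X → X) : Prop where
  maps : ∀ y, σ.Reach v y → σ.Reach v (M y)
  inv : ∀ y, σ.Reach v y → M (M y) = y
  cov : ∀ y, σ.Reach v y → Cv σ y (M y) ∨ Cv σ (M y) y
  spec : ∀ y z, σ.Reach v y → Cv σ y z → M y ≠ z → σ.Reach (M y) (M z)

/-- `c` is a root of the plane spanned by the roots `a`, `b` -/
def InPl (a b c : V) : Prop := c ∈ σ.Φ ∧ (c = a ∨ c = -a ∨ c = b ∨ c = -b ∨
  (σ.ip a b = -1 ∧ (c = a + b ∨ c = -(a + b))) ∨ (σ.ip a b = 1 ∧ (c = a - b ∨ c = -(a - b))))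

/-- 4C: four cycles lie in a plane -/
def S_4C : Prop := ∀ a ∈ σ.Φ, ∀ b ∈ σ.Φ, ∀ c ∈ σ.Φ, ∀ d ∈ σ.Φ, a ≠ b → a ≠ -b →
  ∀ x, σ.r a (σ.r b x) = σ.r c (σ.r d x) → InPl σ a b c ∧ InPl σ a b d

/-- OCT: two consecutive squares force an edge -/
def S_OCT : Prop := ∀ (Y y y' z z' t : X), y ≠ y' → z ≠ z' →
  (∃ a ∈ σ.Φ, y = σ.r a Y) → (∃ a ∈ σ.Φ, y' = σ.r a Y) →
  (∃ a ∈ σ.Φ, z = σ.r a y) → (∃ a ∈ σ.Φ, z' = σ.r a y) →
  (∃ a ∈ σ.Φ, z = σ.r a y') → (∃ a ∈ σ.Φ, z' = σ.r a y') →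
  (∃ a ∈ σ.Φ, t = σ.r a z) → (∃ a ∈ σ.Φ, t = σ.r a z') → ∃ c ∈ σ.Φ, t = σ.r c Y

/-- DM: an interval of length two has a second middle element -/
def S_DM : Prop := ∀ y z t, Cv σ y z → Cv σ z t → ∃ z', z' ≠ z ∧ Cv σ y z' ∧ Cv σ z' t

/-- CHAIN: reachability is generated by covers -/
def S_CHAIN : Prop := ∀ y z, σ.Reach y z → Relation.ReflTransGen (Cv σ) y z

/-- EDGE: a special matching maps edges to edges -/
def S_EDGE : Prop := ∀ v M, SM σ v M → ∀ y, σ.Reach v y → ∀ a, σ.Psi y a →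
  ∃ c ∈ σ.Φ, M (σ.r a y) = σ.r c (M y)

/-- LFT: the lifting property of special matchings -/
def S_LFT : Prop := ∀ v M, SM σ v M → ∀ y z, σ.Reach v y → σ.Reach y z → Cv σ (M z) z →
  σ.Reach (M y) z

/-- the plane conditions at `y` for the pairs containing `α` -/
structure VAt (y : X) (α : V) : Prop where
  perp : ∀ b, σ.Psi y b → σ.ip α b = 0 → σ.P (σ.r α (σ.r b y))
  neg : ∀ b, σ.Psi y b → σ.ip α b = -1 → σ.P (σ.r α (σ.r b y)) ∨ σ.P (σ.r b (σ.r α y))
  pos : ∀ b, σ.Psi y b → σ.ip α b = 1 → σ.N y (b - α) → σ.P (σ.r α (σ.r b y))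
  pos' : ∀ b, σ.Psi y b → σ.ip α b = 1 → σ.N y (α - b) → σ.P (σ.r b (σ.r α y))

/-- VA: at the top vertex of a special matching the plane conditions hold for the pairs containing the
matched root -/
def S_VA : Prop := ∀ y M, SM σ y M → (∃ a, σ.Psi y a) →
  ∃ α, σ.Psi y α ∧ Indec σ y α ∧ VAt σ y α

/-- VX (rank 3) -/
def S_VX : Prop := ∀ y α, (∀ a, σ.Psi y a → σ.RegUp (σ.r a y)) → σ.Psi y α → Indec σ y α →
  VAt σ y α → σ.VReg y

/-- ZREG: dual zircons are regular -/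
def S_ZREG : Prop := ∀ x, (∀ v, σ.Reach x v → (∃ a, σ.Psi v a) → ∃ M, SM σ v M) → σ.RegUp x

section coxeter

variable {B : Type*} {M : CoxeterMatrix B} {W : Type*} [Group W] (cs : CoxeterSystem M W)

/-- The Bruhat order `u ≤ w` -/
def BLe (u w : W) : Prop :=
  Relation.ReflTransGen
    (fun x y => ∃ t, cs.IsReflection t ∧ y = t * x ∧ cs.length x < cs.length y) u w

/-- strict Bruhat order -/
def BLt (u w : W) : Prop := BLe cs u w ∧ u ≠ w

/-- `y` covers `x` in Bruhat order -/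
def BCov (x y : W) : Prop := BLt cs x y ∧ ∀ z, BLt cs x z → ¬ BLt cs z y

/-- `x` lies in the Bruhat interval `[u, v]` -/
def InInt (u v x : W) : Prop := BLe cs u x ∧ BLe cs x v

/-- `f` is a special matching of the Bruhat interval `[u, v]` -/
structure IsSpecialMatching (u v : W) (f : W → W) : Prop where
  maps : ∀ x, InInt cs u v x → InInt cs u v (f x)
  inv : ∀ x, InInt cs u v x → f (f x) = x
  cov : ∀ x, InInt cs u v x → BCov cs x (f x) ∨ BCov cs (f x) x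
  special : ∀ x y, InInt cs u v x → InInt cs u v y → BCov cs x y → f x ≠ y → BLt cs (f x) (f y)

/-- the Bruhat interval `[u, w]` is a zircon: every `[u, v]` with `u < v ≤ w` has a special matching -/
def IsZircon (u w : W) : Prop := ∀ v, BLt cs u v → BLe cs v w → ∃ f, IsSpecialMatching cs u v f

/-- SYS: the system attached to the lower end `u` in a finite simply laced Coxeter group -/
def S_SYS (cs : CoxeterSystem M W) (u : W) : Prop :=
  ∃ σ : Sys (B → ℤ) W, (∀ x, σ.P x ↔ BLe cs u x) ∧ (∀ x, σ.mu x = cs.length x) ∧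
    (∀ a ∈ σ.Φ, ∃ t, cs.IsReflection t ∧ ∀ x, σ.r a x = t * x) ∧
    (∀ t, cs.IsReflection t → ∃ a ∈ σ.Φ, 0 < σ.ht a ∧ ∀ x, σ.r a x = t * x) ∧
    (∀ a ∈ σ.S, ∃ i, ∀ x, σ.r a x = cs.simple i * x) ∧
    (∀ i, ∃ a ∈ σ.S, ∀ x, σ.r a x = cs.simple i * x)

/-- FINAL: Delanoy's descent conjecture for finite simply laced Coxeter systems -/
def S_FINAL (cs : CoxeterSystem M W) : Prop := ∀ u w, BLt cs u w → IsZircon cs u w →
  ∃ i, cs.length (cs.simple i * w) < cs.length w ∧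
    (¬ BLe cs u (cs.simple i * w) ∨ cs.length u < cs.length (cs.simple i * u))

end coxeter

end Pool.Agent.W838.DC
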