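import Mathlib

/-!
# The group of type `A_3` as tables, and the finite checks in rank three

Elements are `0, ..., 23` (ordered by length), positive roots `0, ..., 5` are
`a1, a2, a3, a1 + a2, a2 + a3, a1 + a2 + a3`. `T g k` is the element `t_k g`, `sgn g k` says that `g⁻¹` of the
`k`-th positive root is positive. A set of elements is a bit mask `Y`.
-/

set_option autoImplicit false

namespace Pool.Agent.W838.DC.Tab

def Tn : ℕ := 401057367799393338535371222341093521515625317279853631929614020841166701443057109942191694303048016801449207982119158945149556216799761347300925682917675713754192105143626146993408753937351697340349753502111441914945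
def Sn : ℕ := 5620164563615414930843436807954875015103
def In : ℕ := 4324277721462458599571
def An : ℕ := 324518553648979687902389453447135
def Bn : ℕ := 285534581879006310916870541148159
def Ln : ℕ := 108463739863865909705258272857526758047046760812510976752417736032519929424120203956686889797766437399163319664818745727114635925636607162751290952430205358503374406073450496

/-- the element `t_k g` -/
def T (g k : ℕ) : ℕ := (Tn >>> (5 * (6 * g + k))) % 32
/-- is the `k`-th root above `g` -/
def sgn (g k : ℕ) : Bool := (Sn >>> (6 * g + k)) % 2 == 1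
/-- inner product plus one -/
def ipN (i j : ℕ) : ℕ := (In >>> (2 * (6 * i + j))) % 4
/-- index of the sum of the roots `i` and `j`, or `7` -/
def addN (i j : ℕ) : ℕ := (An >>> (3 * (6 * i + j))) % 8
/-- index of the difference `i - j` if it is a positive root, or `7` -/
def subN (i j : ℕ) : ℕ := (Bn >>> (3 * (6 * i + j))) % 8
/-- bit mask of the elements `t_k g` below `g` -/
def low (g : ℕ) : ℕ := (Ln >>> (24 * g)) % 16777216

def bit (Y g : ℕ) : Bool := (Y >>> g) % 2 == 1

/-- reduced word of the element `g` (leftmost letter first) -/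
def wd (g : ℕ) : List ℕ := ([[], [0], [1], [2], [0, 1], [0, 2], [1, 0], [1, 2], [2, 1], [0, 1, 0], [0, 1, 2], [0, 2, 1], [1, 0, 2], [1, 2, 1], [2, 1, 0], [0, 1, 0, 2], [0, 1, 2, 1], [0, 2, 1, 0], [1, 0, 2, 1], [1, 2, 1, 0], [0, 1, 0, 2, 1], [0, 1, 2, 1, 0], [1, 0, 2, 1, 0], [0, 1, 0, 2, 1, 0]]).getD g []

/-- all lower sets of the first `k` elements -/
def gen : ℕ → List ℕ
  | 0 => [0]
  | k + 1 => gen k ++ ((gen k).filter (fun Y => (Y &&& low k) == low k)).map (fun Y => Y + 2 ^ k)

def allY : List ℕ := gen 24

def psi (Y g k : ℕ) : Bool := sgn g k && bit Y (T g k)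

def arr (Y g z b : ℕ) : Bool :=
  psi Y g z && psi Y g b && ipN z b == 0 && !(bit Y (T g (addN z b))) && bit Y (T (T g b) z)

def dbl (Y g z b : ℕ) : Bool :=
  psi Y g z && psi Y g b && ipN z b == 2 && subN b z != 7 && !(sgn g (subN b z))

def c6 (Y g z b : ℕ) : Bool :=
  psi Y g z && psi Y g b && ipN z b == 0 && bit Y (T g (addN z b))

def r6 : List ℕ := [0, 1, 2, 3, 4, 5]
def r24 : List ℕ := [0, 1, 2, 3, 4, 5, 6, 7, 8, 9, 10, 11, 12, 13, 14, 15, 16, 17, 18, 19, 20, 21, 22, 23]

def vreg (Y g : ℕ) : Bool := r6.all fun a => !(psi Y g a) || r6.all fun b => !(psi Y g b) ||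
  (a == b ||
  (if ipN a b == 1 then bit Y (T (T g b) a)
   else if ipN a b == 0 then (bit Y (T (T g b) a) || bit Y (T (T g a) b))
   else (subN b a == 7 || sgn g (subN b a) || bit Y (T (T g b) a))))

/-- one step of the upward closure of the set `U` inside `Y` -/
def upStep (Y U : ℕ) : ℕ := r24.foldl (fun acc g => if bit U g then
  r6.foldl (fun acc k => if psi Y g k then acc ||| (1 <<< T g k) else acc) acc else acc) U

/-- the elements reachable from `g` inside `Y` -/
def upMask (Y g : ℕ) : ℕ :=
  upStep Y (upStep Y (upStep Y (upStep Y (upStep Y (upStep Y (1 <<< g))))))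

def r24r : List ℕ := [23, 22, 21, 20, 19, 18, 17, 16, 15, 14, 13, 12, 11, 10, 9, 8, 7, 6, 5, 4, 3, 2, 1, 0]

/-- the elements of `Y` all of whose upper bounds in `Y` are regular -/
def regMask (Y : ℕ) : ℕ := r24r.foldl (fun acc g =>
  if bit Y g && vreg Y g && r6.all (fun k => !(psi Y g k) || bit acc (T g k)) then acc ||| (1 <<< g) else acc) 0

/-- run a check over all lower sets `Y` and all regular elements `g` of `Y` -/
def runAll (chk : ℕ → ℕ → Bool) : Bool :=
  allY.all fun Y => r24.all fun g => !(bit (regMask Y) g) || chk Y g

def chkFX (Y g : ℕ) : Bool := r6.all fun n => sgn g n || r6.all fun b => !(psi Y g b) || !(ipN n b == 0) ||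
  bit Y (T g (addN n b)) || !(sgn g (addN n b)) ||
  r6.all fun a => !(sgn g a) || !(ipN a n == 0) || !(ipN a b == 1) || bit Y (T g a) ||
    !(psi Y g (addN a n)) || !(bit Y (T (T g b) (addN a n)))

def chkFY (Y g : ℕ) : Bool := r6.all fun f => !(psi Y g f) || r6.all fun z => !(arr Y g z f) ||
  r6.all fun y => !(psi Y g y) || !(ipN z y == 1) || !(ipN f y == 0) || !(bit Y (T (T g y) f)) ||
    bit Y (T (T (T g y) f) z)

def chkF1 (Y g : ℕ) : Bool := r6.all fun c => !(psi Y g c) || r6.all fun d => !(c6 Y g c d) ||
  r6.all fun b => !(arr Y g (addN c d) b) ||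
    (arr Y g c b || arr Y g d b || (c6 Y g c b && arr Y g d (addN b c)) || (c6 Y g d b && arr Y g c (addN b d)))

/-- `k` is a simple root of the slice -/
def simp3 : List ℕ := [0, 1, 2]

def chkF2 (Y g : ℕ) : Bool := simp3.all fun s => !(psi Y g s) || (r6.any fun z => arr Y g z s) ||
  r6.all fun b => b == s || !(psi Y g b) || (subN b s != 7 && sgn g (subN b s)) ||
    (psi Y (T g b) s && r6.all fun z => !(arr Y (T g b) z s))

/-- the plane conditions for the pairs containing `α` -/
def vat (Y g α : ℕ) : Bool := r6.all fun b => b == α || !(psi Y g b) ||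
  (if ipN α b == 1 then bit Y (T (T g b) α)
   else if ipN α b == 0 then (bit Y (T (T g b) α) || bit Y (T (T g α) b))
   else (subN b α == 7 || sgn g (subN b α) || bit Y (T (T g b) α)) &&
        (subN α b == 7 || sgn g (subN α b) || bit Y (T (T g α) b)))

/-- `k` is not a sum of two roots above `g` -/
def indec (g k : ℕ) : Bool := r6.all fun i => r6.all fun j =>
  !(sgn g i && sgn g j && addN i j == k)

def chkVX (Y g : ℕ) : Bool := vreg Y g || r6.all fun α => !(psi Y g α && indec g α && vat Y g α)

/-- for `VX` only the elements strictly above `g` are assumed regular -/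
def runVX : Bool := allY.all fun Y => r24.all fun g =>
  !(bit Y g && r6.all (fun k => !(psi Y g k) || bit (regMask Y) (T g k))) || chkVX Y g

/-- known comparisons at the vertex `y`: `(src, dst, strict)` means `H dst ≤ H src` (`<` if strict). States are
coded as `6 * vertex + root`. Level 0: only the definition; level 1: also `perp, P1, M1, M2, M3, M4`;
level 2: all. -/
def edgesAt (Y y lvl : ℕ) : List (ℕ × ℕ × Bool) :=
  r6.flatMap fun z => if psi Y y z then r6.flatMap (fun b =>
    if z == b || !(psi Y y b) then [] else
    if ipN z b == 1 then (if 1 ≤ lvl then [(6 * y + z, 6 * T y b + z, false)] else [])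
    else if ipN z b == 0 then
      (if bit Y (T y (addN z b)) then
        (if 1 ≤ lvl then
          [(6 * y + z, 6 * T y b + addN z b, false), (6 * T y b + addN z b, 6 * y + z, false),
           (6 * y + addN z b, 6 * T y b + z, false), (6 * T y b + z, 6 * y + addN z b, false)] ++
          (if 2 ≤ lvl then [(6 * y + addN z b, 6 * y + z, false)] else []) else [])
       else if bit Y (T (T y b) z) then
        (6 * y + z, 6 * T y b + z, false) ::
          (if 1 ≤ lvl then
            [(6 * T y b + z, 6 * y + b, true), (6 * y + b, 6 * T y z + addN z b, false),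
             (6 * T y z + addN z b, 6 * y + b, false)] else [])
       else [])
    else if dbl Y y z b then
      (if 1 ≤ lvl then
        [(6 * y + b, 6 * T y z + subN b z, false), (6 * T y z + subN b z, 6 * y + b, false)] ++
        (if 2 ≤ lvl then [(6 * y + z, 6 * T y b + z, false), (6 * y + z, 6 * y + b, false)] else [])
       else [])
    else []) else []

/-- one round of closure: the first mask is closed under all edges, the second one under strictness -/
def clStep (E : List (ℕ × ℕ × Bool)) (m : ℕ × ℕ) : ℕ × ℕ := E.foldl (fun m e =>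
  ((if bit m.1 e.1 then m.1 ||| (1 <<< e.2.1) else m.1),
   (if bit m.2 e.1 || (e.2.2 && bit m.1 e.1) then m.2 ||| (1 <<< e.2.1) else m.2))) m

def clIter (E : List (ℕ × ℕ × Bool)) : ℕ → ℕ × ℕ → ℕ × ℕ
  | 0, m => m
  | k + 1, m => clIter E k (clStep E m)

/-- the goals at `g`: `(a, y, γ, strict)` means `H (y, γ) ≤ H a`. Stage 1: `perp, P1, M1, M2, M3, M4`,
stage 2: `D2, P2, C9` -/
def goalsAt (Y g stage : ℕ) : List (ℕ × ℕ × ℕ × Bool) :=
  r6.flatMap fun z => if psi Y g z then r6.flatMap (fun b =>
    if z == b || !(psi Y g b) then [] else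
    if ipN z b == 1 then (if stage == 1 then [(6 * g + z, T g b, z, false)] else [])
    else if ipN z b == 0 then
      (if bit Y (T g (addN z b)) then
        (if stage == 1 then
          [(6 * g + z, T g b, addN z b, false), (6 * T g b + addN z b, g, z, false),
           (6 * g + addN z b, T g b, z, false), (6 * T g b + z, g, addN z b, false)]
          else [(6 * g + addN z b, g, z, false)])
       else if bit Y (T (T g b) z) then
        (if stage == 1 then
            [(6 * T g b + z, g, b, true), (6 * g + b, T g z, addN z b, false),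
             (6 * T g z + addN z b, g, b, false)] else [])
       else [])
    else if dbl Y g z b then
      (if stage == 1 then
        [(6 * g + b, T g z, subN b z, false), (6 * T g z + subN b z, g, b, false)]
       else [(6 * g + z, T g b, z, false), (6 * g + z, g, b, false)])
    else []) else []

/-- all goals of the given stage follow, for every first step `f` of the smaller state -/
def chkCLM (stage Y g : ℕ) : Bool :=
  (goalsAt Y g stage).all fun q => r6.all fun f => !(arr Y q.2.1 q.2.2.1 f) ||
    (let E := ((r24.filter fun y => y != g && bit (upMask Y g) y).flatMap fun y => edgesAt Y y 2) ++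
        edgesAt Y g (stage - 1)
     let m := clIter E 6 (1 <<< q.1, 0)
     let t := 6 * T q.2.1 f + q.2.2.1
     if q.2.2.2 then bit m.2 t else bit m.1 t)

end Pool.Agent.W838.DC.Tab
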