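import Pool.Agent.W838.DC.Stm2

/-!
# Zircon intervals are lower intervals (MP_1d6543_co): statements
-/

set_option autoImplicit false

namespace Pool.Agent.W838.DC

open Sys

section coxeter

variable {B : Type*} {M : CoxeterMatrix B} {W : Type*} [Group W] (cs : CoxeterSystem M W)

/-- left multiplication by the reflection `t` preserves `[u, v]`, changes the length by one and has the lifting
property -/
structure Stab (u v t : W) : Prop where
  refl : cs.IsReflection t
  maps : ∀ q, InInt cs u v q → InInt cs u v (t * q)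
  len : ∀ q, InInt cs u v q →
    cs.length (t * q) = cs.length q + 1 ∨ cs.length q = cs.length (t * q) + 1
  lift : ∀ q p, InInt cs u v q → InInt cs u v p → BLe cs q p → cs.length (t * p) < cs.length p →
    BLe cs (t * q) p ∧ (cs.length q < cs.length (t * q) → BLe cs q (t * p)) ∧
      (cs.length (t * q) < cs.length q → BLe cs (t * q) (t * p))

/-- TSTAR: every zircon interval has such a reflection -/
def S_TSTAR : Prop := ∀ u w, BLt cs u w → IsZircon cs u w → ∃ t, Stab cs u w t

/-- RES: restriction of `Stab` to a smaller upper end -/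
def S_RES : Prop := ∀ u v t, Stab cs u v t → ∀ q, InInt cs u v q →
  cs.length (t * q) < cs.length q → Stab cs u q t

/-- the coset of `q` under the dihedral group of `s, t` (of order 6) is a hexagon with simple reflections `s, t` -/
def Hex (s t q : W) : Prop := ∃ z,
  (q = z ∨ q = s * z ∨ q = t * z ∨ q = t * (s * z) ∨ q = s * (t * z) ∨ q = s * (t * (s * z))) ∧
  cs.length z < cs.length (s * z) ∧ cs.length (s * z) < cs.length (t * (s * z)) ∧
  cs.length (t * (s * z)) < cs.length (s * (t * (s * z))) ∧
  cs.length z < cs.length (t * z) ∧ cs.length (t * z) < cs.length (s * (t * z)) ∧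
  cs.length (s * (t * z)) < cs.length (t * (s * (t * z)))

/-- HEX: two non commuting reflections generate a group of order six, whose cosets are hexagons, with the same
pair of simple reflections for all cosets -/
def S_HEX : Prop := ∀ a b, cs.IsReflection a → cs.IsReflection b → a * b ≠ b * a →
  a * b * a = b * a * b ∧ ((∀ q, Hex cs a b q) ∨ (∀ q, Hex cs a (a * b * a) q) ∨
    (∀ q, Hex cs (a * b * a) b q))

/-- COMM: commuting reflections do not influence each other -/
def S_COMM : Prop := ∀ a b, cs.IsReflection a → cs.IsReflection b → a ≠ b → a * b = b * a →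
  ∀ q, (cs.length q < cs.length (a * q) ↔ cs.length (b * q) < cs.length (a * (b * q)))

/-- E12 -/
def S_E12 : Prop := ∀ u v a b, Stab cs u v a → Stab cs u v b → a ≠ b →
  Stab cs u (a * v) b ∧ (a * b ≠ b * a → Stab cs u (b * (a * v)) a)

/-- E3 -/
def S_EC : Prop := ∀ u v a b, Stab cs u v a → Stab cs u (a * v) b → a ≠ b → a * b = b * a →
  Stab cs u v b

/-- E4 -/
def S_EN : Prop := ∀ u v a b, Stab cs u v a → Stab cs u (a * v) b → Stab cs u (b * (a * v)) a →
  a * b ≠ b * a → Stab cs u v b

/-- DD: two left descents `i ≠ j` with `m = 2` or `m = 3` -/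
def S_DD : Prop := ∀ i j (x : W), i ≠ j → cs.length (cs.simple i * x) < cs.length x →
  cs.length (cs.simple j * x) < cs.length x →
  (M i j = 2 → ∃ z, x = cs.simple i * (cs.simple j * z) ∧ cs.length x = cs.length z + 2) ∧
  (M i j = 3 → ∃ z, x = cs.simple i * (cs.simple j * (cs.simple i * z)) ∧
    cs.length x = cs.length z + 3)

/-- the Coxeter matrix on all reflections, `m(a, b) = orderOf (a * b)` -/
noncomputable def RM : CoxeterMatrix {t : W // cs.IsReflection t} where
  M := Matrix.of fun a b => orderOf (a.1 * b.1)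
  isSymm := by
    ext a b
    simp only [Matrix.transpose_apply, Matrix.of_apply]
    rw [← orderOf_inv, mul_inv_rev, a.2.inv, b.2.inv]
  diagonal := by
    intro a
    simp only [Matrix.of_apply]
    rw [a.2.mul_self, orderOf_one]
  off_diagonal := by
    intro a b hab h
    simp only [Matrix.of_apply] at h
    rw [orderOf_eq_one_iff] at h
    apply hab
    apply Subtype.ext
    have h2 := b.2.mul_self
    have : a.1 = b.1⁻¹ := eq_inv_of_mul_eq_one_left h
    rw [this, b.2.inv]

/-- the Coxeter system of the matrix `RM` -/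
noncomputable def rcs : CoxeterSystem (RM cs) (RM cs).Group := (RM cs).toCoxeterSystem

/-- DES: the comparison map -/
def S_DES : Prop := ∀ u w, (∀ v, BLt cs u v → BLe cs v w → ∃ t, Stab cs u v t) →
  ∃ φ : W → (RM cs).Group, φ u = 1 ∧ ∀ v, InInt cs u w v →
    (rcs cs).length (φ v) + cs.length u = cs.length v ∧
    (∀ t (ht : cs.IsReflection t), Stab cs u v t ↔
      (rcs cs).length ((rcs cs).simple ⟨t, ht⟩ * φ v) < (rcs cs).length (φ v)) ∧
    (∀ t (ht : cs.IsReflection t), Stab cs u v t → φ (t * v) = (rcs cs).simple ⟨t, ht⟩ * φ v)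

/-- ISO: the interval `[u, w]` is isomorphic to a lower interval of the Coxeter group of `RM` -/
def S_ISO : Prop := ∀ u w, BLe cs u w → (∀ v, BLt cs u v → BLe cs v w → ∃ t, Stab cs u v t) →
  ∃ (x : (RM cs).Group) (φ : {y // InInt cs u w y} ≃ {y // InInt (rcs cs) 1 x y}),
    ∀ a b, BLe cs a.1 b.1 ↔ BLe (rcs cs) (φ a).1 (φ b).1

end coxeter

end Pool.Agent.W838.DC
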